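import Pool.Agent.LibH11.Berry.Final2

/-!
# The four-point function of an arbitrary planar invariant monochromatic wave

For a translation invariant random solution `F` of `∂₁²F + ∂₂²F = -F` on `ℝ² = ℂ` with finite fourth
moment, the spatial averages of `F(x) F(x+a)` over large discs converge in mean square to random
variables `c(a)` (the random covariance), and the four-point function of `F` is the sum over pairings
of `E[c c]` minus three translates of the function `h(y) = lim_R ⨍_{|s|<R} E[c(s) c(s+y)] ds`.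
-/

open MeasureTheory Berry Filter Topology Metric

theorem Berry.Flat.FourPointFormula
    {Ω : Type*} [MeasurableSpace Ω] (P : Measure Ω) [IsProbabilityMeasure P]
    (F : ℂ → Ω → ℝ) (hF : InvWave P F) (h4 : MemLp (F 0) 4 P) :
    ∃ (c : ℂ → Ω → ℝ) (h : ℂ → ℝ),
      (∀ a, MemLp (c a) 2 P) ∧
      (∀ a, Tendsto (fun R : ℝ => ∫ ω, (spatialAvg F a R ω - c a ω) ^ 2 ∂P) atTop (𝓝 0)) ∧
      (∀ y, Tendsto (fun R : ℝ => ⨍ s in ball (0:ℂ) R, ∫ ω, c s ω * c (s + y) ω ∂P) atTop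
        (𝓝 (h y))) ∧
      (∀ x₁ x₂ x₃ x₄ : ℂ, ∫ ω, F x₁ ω * F x₂ ω * F x₃ ω * F x₄ ω ∂P
        = (∫ ω, c (x₁ - x₂) ω * c (x₃ - x₄) ω ∂P) + (∫ ω, c (x₁ - x₃) ω * c (x₂ - x₄) ω ∂P)
          + (∫ ω, c (x₁ - x₄) ω * c (x₂ - x₃) ω ∂P)
          - h (x₁ + x₂ - x₃ - x₄) - h (x₁ - x₂ + x₃ - x₄) - h (x₁ - x₂ - x₃ + x₄)) ∧
      0 ≤ h 0 ∧ 2 * h 0 ≤ ∫ ω, c 0 ω ^ 2 ∂P :=
  hF.four_point_formula h4
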