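import Pool.Agent.LibH11.Berry.Three

/-!
# Four-point rigidity of planar invariant monochromatic waves

For a translation invariant random solution `F` of `∂₁²F + ∂₂²F = -F` on `ℝ² = ℂ` with finite fourth
moment, the following are equivalent: Planck-scale quantum unique ergodicity; the four-point function
is Gaussian; all moments up to order four are those of the isotropic Gaussian wave.
-/

open MeasureTheory Berry

theorem Berry.Flat.FourPointRigidity
    {Ω : Type*} [MeasurableSpace Ω] (P : Measure Ω) [IsProbabilityMeasure P]
    (F : ℂ → Ω → ℝ) (hF : InvWave P F) (h4 : MemLp (F 0) 4 P) :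
    List.TFAE [PlanckQE P F, FourPt P F, GaussUpToFour P F] := by
  tfae_have 1 → 2 := fun h => hF.planck_four_point h4 h
  tfae_have 2 → 1 := fun h => hF.planck_of_fourPt h4 h
  tfae_have 3 → 2 := fun h => h.2.2.2
  tfae_have 2 → 3 := by
    intro h
    have hq := hF.planck_of_fourPt h4 h
    refine ⟨hF.one_point h4, fun x y => ?_, hF.three_point h4 h, h⟩
    rw [hF.planck_two_point h4 hq, ← waveK_neg (x - y), neg_sub]
  tfae_finish
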